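import Pool.Agent.Run7.h604.HK.Laws2

/-!
# Vanishing simplicial volume and the Euler characteristic: bounds suffice

A class of closed oriented aspherical manifolds closed under products and containing the surfaces, or
more generally a class of cocompact complexes (`Cplx`, the cellular chain complexes of the universal
covers), is considered, with a size `v` such that `v A = 0` implies `v (A × B) = 0`, for example the
simplicial volume (`‖M × N‖ ≤ C ‖M‖ ‖N‖`).

(1) The Euler characteristic of all members with `v = 0` vanishes if and only if in infinitely many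
even dimensions the Euler characteristics of the members with `v = 0` are bounded.

(2) All `L²`-Betti numbers of all members with `v = 0` vanish if and only if in infinitely many even
dimensions their sums are bounded for the members with `v = 0`.

So the question of Gromov has a positive answer if for infinitely many even `n` there is a constant
`β(n)` with `|χ(M)| ≤ β(n) (1 + ‖M‖)`, or only `|χ(M)| ≤ β(n)` if `‖M‖ = 0`, for all closed oriented
aspherical `n`-manifolds.

Outline. Multiplication by surfaces of large genus, and the Künneth formula for reduced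
`L²`-homology, which is proved for these complexes.
-/

set_option autoImplicit false

namespace Pool.Agent.Results.MP_8a95ee_gt.BoundedSuffices

open Pool.Agent.Run7.h604.HK Pool.Agent.Run7.h604.HK.Cplx

/-- products with powers of surfaces -/
theorem aux {𝒞 : Cplx → Prop} (hp : ∀ A B, 𝒞 A → 𝒞 B → 𝒞 (A.prod B)) {v : Cplx → ℝ}
    (hv : ∀ A B, 𝒞 A → 𝒞 B → v A = 0 → v (A.prod B) = 0) {A S : Cplx} (hA : 𝒞 A) (h0 : v A = 0)
    (hS : 𝒞 S) (hd : S.dim = 2) (j : ℕ) :
    ∃ B, 𝒞 B ∧ v B = 0 ∧ B.dim = 2 * (A.dim + 1 + j) ∧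
      B.total = A.total ^ 2 * S.total ^ (j + 1) ∧ B.euler = A.euler ^ 2 * S.euler ^ (j + 1) := by
  refine ⟨(A.prod A).prod (S.pw j), hp _ _ (hp _ _ hA hA) (pw_mem hp hS j),
    hv _ _ (hp _ _ hA hA) (pw_mem hp hS j) (hv _ _ hA hA h0), ?_, ?_, ?_⟩
  · rw [prod_dim, prod_dim, pw_dim, hd]
    ring
  · rw [total_prod, total_prod, pw_total]
    ring
  · rw [euler_prod, euler_prod, pw_euler]
    ring

theorem result (𝒞 : Cplx → Prop) (hp : ∀ A B, 𝒞 A → 𝒞 B → 𝒞 (A.prod B)) (v : Cplx → ℝ)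
    (hv : ∀ A B, 𝒞 A → 𝒞 B → v A = 0 → v (A.prod B) = 0)
    (hS : ∀ t : ℝ, ∃ S, 𝒞 S ∧ S.dim = 2 ∧ t ≤ |S.euler| ∧ |S.euler| ≤ S.total) :
    ((∀ A, 𝒞 A → v A = 0 → A.euler = 0) ↔
      ∀ N : ℕ, ∃ m ≥ N, ∃ β : ℝ, ∀ A, 𝒞 A → A.dim = 2 * m → v A = 0 → |A.euler| ≤ β) ∧
    ((∀ A, 𝒞 A → v A = 0 → ∀ k, A.betti k = 0) ↔
      ∀ N : ℕ, ∃ m ≥ N, ∃ β : ℝ, ∀ A, 𝒞 A → A.dim = 2 * m → v A = 0 → A.total ≤ β) := by
  refine ⟨⟨fun h N => ⟨N, le_rfl, 0, fun A hA _ h0 => ?_⟩, fun H A hA h0 => ?_⟩,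
    ⟨fun h N => ⟨N, le_rfl, 0, fun A hA _ h0 => ?_⟩, fun H A hA h0 k => ?_⟩⟩
  · rw [h A hA h0, abs_zero]
  · obtain ⟨m, hm, β, hβ⟩ := H (A.dim + 1)
    obtain ⟨j, rfl⟩ := Nat.exists_eq_add_of_le hm
    have hle : A.euler ^ 2 ≤ 0 := by
      apply le_of_large (c := β) (j := j)
      intro t
      obtain ⟨S, hSC, hSd, hSt, -⟩ := hS t
      refine ⟨|S.euler|, hSt, ?_⟩
      obtain ⟨B, hBC, hB0, hBd, -, hBe⟩ := aux hp hv hA h0 hSC hSd j
      have h := hβ B hBC hBd hB0
      rw [hBe, abs_mul, abs_pow, abs_pow, sq_abs] at h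
      linarith
    exact pow_eq_zero_iff (two_ne_zero) |>.1 (le_antisymm hle (sq_nonneg _))
  · rw [total, Finset.sum_eq_zero]
    intro k _
    exact h A hA h0 k
  · obtain ⟨m, hm, β, hβ⟩ := H (A.dim + 1)
    obtain ⟨j, rfl⟩ := Nat.exists_eq_add_of_le hm
    have hle : A.total ^ 2 ≤ 0 := by
      apply le_of_large (c := β) (j := j)
      intro t
      obtain ⟨S, hSC, hSd, hSt, hSe⟩ := hS t
      refine ⟨S.total, hSt.trans hSe, ?_⟩
      obtain ⟨B, hBC, hB0, hBd, hBt, -⟩ := aux hp hv hA h0 hSC hSd j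
      have h := hβ B hBC hBd hB0
      rw [hBt] at h
      linarith
    have h1 : A.total = 0 :=
      pow_eq_zero_iff (two_ne_zero) |>.1 (le_antisymm hle (sq_nonneg _))
    exact le_antisymm (h1 ▸ A.betti_le_total k) (A.betti_nonneg k)

end Pool.Agent.Results.MP_8a95ee_gt.BoundedSuffices
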