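import Pool.Agent.Run7.h606.DB.Pow

/-!
# Simplicial volume and Euler characteristic of Davis manifolds: an unbounded power saving is enough

Let the clique complex `L` of the finite graph `G` be a flag homology sphere of dimension `2 m - 1` (`Sph F (2 m) G`).
The torsion-free subgroups of finite index of the right-angled Coxeter group `W G` act freely on the Davis complex, a
contractible (homology) manifold of dimension `2 m`, and the quotients are closed aspherical (homology) manifolds
`M` with `χ(M) = [W G : π₁ M] χ(W G)`, where `χ(W G) = ∑_T (-1/2)^|T|` over the cliques `T` (`chiW G`).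

Let `P m` be the class of those `G` for which the simplicial volumes of these manifolds vanish. It is closed under
unfolding: the right-angled Coxeter group of the double `DG G v` (two copies of `G - v`, glued along the link of `v`)
is a subgroup of index two of `W G`. And the join with the cycle with `k ≥ 4` vertices (`jn G k`) is in `P (m + 1)` if
`G` is in `P m`: the manifolds have finite coverings which are products of manifolds for `G` with a surface. These
are the properties of the class which are used (`JC`).

If `G` has `N` vertices then `χ(W G) = O(N^m)`. Gromov's question for Davis manifolds is whether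
`χ(W G) = 0` for all `G` in `P m`. We show that this is equivalent to an unbounded power saving for centrally
symmetric spheres: for each `B` there is some `m ≥ B` with `χ(W G) = O(N^(m-B))` for the centrally symmetric
members `G` of `P m`. Here `G` is called centrally symmetric (`CSym`) if it has an involutive automorphism such that no
vertex is equal or adjacent to its image; then no nonempty face is mapped to itself. Moreover, one member of `P m` with
`χ ≠ 0`, `m ≥ 1`, gives for each `j` centrally symmetric members of `P (m + j)` with arbitrarily large `N` and with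
`|χ| ≥ c N^(j+1)`.

Proof. Double `k` times, join `j` times with a cycle with `8 * 2^k` vertices, and finally double once at each
vertex of a facet.
-/

set_option autoImplicit false

namespace Pool.Agent.Results.MP_8a95ee_gt.PowerSaving

open Pool.Agent.W907.SG Pool.Agent.R580.CD Pool.Agent.Run7.h606.DB

/-- Let `P m`, `m ≥ 0`, be classes of flag homology spheres over `F` of dimension `2 m - 1` which are closed under
unfolding and under joins with cycles (from `P m` to `P (m + 1)`). (1) `χ(W G) = 0` for all `m` and all `G` in `P m` if
and only if for each `B` there are `m ≥ B` and `C` such that `|χ(W G)| ≤ C f_0(G)^(m-B)` for all centrally symmetric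
`G` in `P m`. (2) If `χ(W G) ≠ 0` for some `G` in `P m`, `m ≥ 1`, then for each `j` there is `c > 0` such that for all
`M` there is a centrally symmetric `H` in `P (m + j)` with at least `M` vertices and `|χ(W H)| ≥ c f_0(H)^(j+1)`. -/
theorem result (F : Type) [Field F] (P : ℕ → ∀ (V : Type) [Fintype V] [LinearOrder V], SimpleGraph V → Prop)
    (hP : JC F P) :
    ((∀ (m : ℕ) (V : Type) [Fintype V] [LinearOrder V] (G : SimpleGraph V), P m V G → chiW G = 0) ↔
      ∀ B : ℕ, ∃ m : ℕ, B ≤ m ∧ ∃ C : ℚ, ∀ (V : Type) [Fintype V] [LinearOrder V] (G : SimpleGraph V), P m V G →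
        CSym G → |chiW G| ≤ C * (Fintype.card V : ℚ) ^ (m - B)) ∧
    ∀ (m : ℕ) (V : Type) [Fintype V] [LinearOrder V] (G : SimpleGraph V), 1 ≤ m → P m V G → chiW G ≠ 0 →
      ∀ j : ℕ, ∃ c : ℚ, 0 < c ∧ ∀ M : ℕ, ∃ (U : Type) (_ : Fintype U) (_ : LinearOrder U) (H : SimpleGraph U),
        P (m + j) U H ∧ CSym H ∧ M ≤ Fintype.card U ∧ c * (Fintype.card U : ℚ) ^ (j + 1) ≤ |chiW H| := by
  refine ⟨⟨fun h B => ⟨B, le_rfl, 0, fun V _ _ G hG _ => ?_⟩, fun h m V _ _ G hG => ?_⟩,
    fun m V _ _ G hm hG hχ j => chi_amp hP hm hG hχ j⟩
  · rw [h B V G hG, abs_zero, zero_mul]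
  · by_contra hχ
    obtain ⟨m', U', i1, i2, G', hm, hG', hχ'⟩ := exists_pos hP hG hχ
    obtain ⟨r, hr, C, hC⟩ := h m'
    obtain ⟨j, rfl⟩ := Nat.exists_eq_add_of_le hr
    obtain ⟨c, hc, h1⟩ := chi_amp hP hm hG' hχ' j
    obtain ⟨M, hM⟩ := exists_nat_gt (C / c)
    obtain ⟨U, i3, i4, H, h2, h3, h4, h5⟩ := h1 (M + 1)
    have h6 := hC U H h2 h3
    rw [Nat.add_sub_cancel_left] at h6
    have h7 : (0 : ℚ) < Fintype.card U := by
      have : 0 < Fintype.card U := by omega
      exact_mod_cast this
    have h8 : (M : ℚ) ≤ Fintype.card U := by
      have : M ≤ Fintype.card U := by omega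
      exact_mod_cast this
    rw [div_lt_iff₀ hc] at hM
    have h9 : 0 < (Fintype.card U : ℚ) ^ j := pow_pos h7 j
    rw [pow_succ] at h5
    have h10 : (c * Fintype.card U - C) * (Fintype.card U : ℚ) ^ j ≤ 0 := by linarith
    have h11 : 0 < c * Fintype.card U - C := by nlinarith
    nlinarith [mul_pos h11 h9]

end Pool.Agent.Results.MP_8a95ee_gt.PowerSaving
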