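import Pool.Agent.Run7.h31.Raise.Density

/-!
# The vanishing of the Euler characteristic and raising endomorphisms

Let `G` be an infinite group with a Poincaré duality complex `D` of dimension `2 n` over the complex
group algebra, for instance the fundamental group of a closed aspherical manifold `M`. We bound the
Euler characteristic `χ` by means of chain endomorphisms which lift the identity of the trivial module
and raise the heights of the basis elements in a totally ordered set, over finite coverings. The
upper bound of `(-1) ^ n χ` uses the degrees `m` with `0 < m ≤ n` and `n - m` even, the lower bound those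
with `n - m` odd; the exceptions count relative to the index of the covering. In particular `χ = 0`
if the densities of exceptions vanish in the degrees `1, …, n`, for instance if a subgroup of finite
index has a left-invariant total order whose monoid `{g | 1 ≤ g}` is of type `FP_n`. Thus the
assertion that `‖M‖ = 0` implies `χ(M) = 0` holds for these manifolds, and a counterexample has exceptions
of positive density in some degree `m ≤ n` for all ordered sets and all finite coverings.

Outline. The restriction of the complex to a subgroup of finite index is a Poincaré duality complex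
whose `L²`-Betti numbers are multiplied by the index; we apply the bound of
`MP_984acc_gt.OrderRaising` to it. By the Euler-Poincaré formula `(-1) ^ n χ` is the sum of the
`L²`-Betti numbers whose degrees are congruent to `n` modulo two minus the sum of the others, and the
duality pairs the degrees `m` and `2 n - m`.
-/

set_option autoImplicit false

universe u v

namespace Pool.Agent.Results.MP_8a95ee_gt.RaisedCoverings

open Pool.Agent.Results.MP_984acc_gt.OrderRaising Run7.h31.Raise

/-- The degrees below the middle dimension `n` which are positive and of the parity of `n`. -/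
def evenCo (n : ℕ) : Finset ℕ := (Finset.range n).filter fun m => 1 ≤ m ∧ ¬ Odd (n + m)

theorem even_sum_le (b ε : ℕ → ℝ) (n : ℕ) (hb0 : 0 < n → b 0 = 0 ∧ b (2 * n) = 0)
    (h : ∀ m, 1 ≤ m → m < n → ¬ Odd (n + m) → b m ≤ ε m ∧ b (2 * n - m) ≤ ε m) :
    ∑ m ∈ (Finset.range n).filter (fun m => ¬ Odd (n + m)), (b m + b (2 * n - m))
      ≤ 2 * ∑ m ∈ evenCo n, ε m := by
  have h1 : ∑ m ∈ (Finset.range n).filter (fun m => ¬ Odd (n + m)), (b m + b (2 * n - m))
      = ∑ m ∈ evenCo n, (b m + b (2 * n - m)) := by
    symm
    apply Finset.sum_subset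
    · intro m hm
      simp only [evenCo, Finset.mem_filter, Finset.mem_range] at hm ⊢
      exact ⟨hm.1, hm.2.2⟩
    · intro m hm hm'
      simp only [evenCo, Finset.mem_filter, Finset.mem_range, not_and] at hm hm'
      have hm0 : m = 0 := by
        by_contra hne
        exact hm' hm.1 (by omega) hm.2
      subst hm0
      rw [Nat.sub_zero, (hb0 hm.1).1, (hb0 hm.1).2, add_zero]
  rw [h1, Finset.mul_sum]
  apply Finset.sum_le_sum
  intro m hm
  simp only [evenCo, Finset.mem_filter, Finset.mem_range] at hm
  have := h m hm.2.1 hm.1 hm.2.2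
  linarith [this.1, this.2]

/-- **The Euler characteristic and raising endomorphisms in finite coverings.** Let `D` be the
complex of a Poincaré duality group structure of dimension `2 n` on the infinite group `G`, and
`n ≥ 1`.

1. If `G` is raised in degree `n` with density at most `ε n`, and in degree `m` with density at most
`ε m` for all `m` with `1 ≤ m < n` and `n - m` even, then `(-1) ^ n χ` is at most `ε n` plus the double of
the sum of the `ε m` for these `m`.
2. If `G` is raised in degree `m` with density at most `ε m` for all `m` with `1 ≤ m ≤ n`, then `|χ|`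
is at most the maximum of the bound in 1. and of the double of the sum of the `ε m` with `n - m` odd.
3. If for each `m` with `1 ≤ m ≤ n` the group `G` is raised in degree `m` with density zero, or
virtually has an ordered set whose upper subcomplexes are exact in the degrees less than `m`, or
virtually has a left-invariant total order whose monoid `{g | 1 ≤ g}` is of type `FP_m`, then
`χ = 0`. -/
theorem result (G : Type u) [Group G] [Infinite G] (n : ℕ) (hn : 1 ≤ n) (r : ℕ → ℕ)
    (D : Matrices G r) (hD : IsDualityComplex (2 * n) D) :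
    (∀ ε : ℕ → ℝ, RaisedWithDensity.{u, v} G n (ε n) →
      (∀ m, 1 ≤ m → m < n → ¬ Odd (n + m) → RaisedWithDensity.{u, v} G m (ε m)) →
      (-1) ^ n * (eulerChar (2 * n) r : ℝ) ≤ ε n + 2 * ∑ m ∈ evenCo n, ε m) ∧
    (∀ ε : ℕ → ℝ, (∀ m, 1 ≤ m → m ≤ n → RaisedWithDensity.{u, v} G m (ε m)) →
      |(eulerChar (2 * n) r : ℝ)|
        ≤ max (ε n + 2 * ∑ m ∈ evenCo n, ε m) (2 * ∑ m ∈ oddCo n, ε m)) ∧
    ((∀ m, 1 ≤ m → m ≤ n → RaisedWithDensity.{u, v} G m 0 ∨
      VirtuallyUpperExact.{u, v} G m ∨ VirtuallyOrderedFP.{u} G m) →
      eulerChar (2 * n) r = 0) := by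
  have hnn : ∀ S : Finset ℕ, 0 ≤ ∑ m ∈ S, (betti D m + betti D (2 * n - m)) := fun S =>
    Finset.sum_nonneg fun m _ => add_nonneg (betti_nonneg D m) (betti_nonneg D _)
  have up : ∀ ε : ℕ → ℝ, betti D n ≤ ε n → (∀ m, 1 ≤ m → m < n → ¬ Odd (n + m) →
      betti D m ≤ ε m ∧ betti D (2 * n - m) ≤ ε m) →
      (-1) ^ n * (eulerChar (2 * n) r : ℝ) ≤ ε n + 2 * ∑ m ∈ evenCo n, ε m := by
    intro ε h0 h
    rw [euler_cast D hD, sign_formula]
    have h1 := even_sum_le (betti D) ε n (fun hn => ends_zero D hD hn) h
    have h2 := hnn ((Finset.range n).filter fun m => Odd (n + m))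
    linarith
  have low : ∀ ε : ℕ → ℝ, (∀ m, 1 ≤ m → m < n → Odd (n + m) →
      betti D m ≤ ε m ∧ betti D (2 * n - m) ≤ ε m) →
      - (2 * ∑ m ∈ oddCo n, ε m) ≤ (-1) ^ n * (eulerChar (2 * n) r : ℝ) := by
    intro ε h
    rw [euler_cast D hD, sign_formula]
    have h1 := odd_sum_le (betti D) ε n (fun hn => ends_zero D hD hn) h
    have h2 := hnn ((Finset.range n).filter fun m => ¬ Odd (n + m))
    have h3 := betti_nonneg D n
    linarith
  have both : ∀ ε : ℕ → ℝ, (∀ m, 1 ≤ m → m ≤ n →
      betti D m ≤ ε m ∧ betti D (2 * n - m) ≤ ε m) → |(eulerChar (2 * n) r : ℝ)|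
        ≤ max (ε n + 2 * ∑ m ∈ evenCo n, ε m) (2 * ∑ m ∈ oddCo n, ε m) := by
    intro ε h
    have h1 := up ε (h n hn le_rfl).1 (fun m h1 h2 _ => h m h1 h2.le)
    have h2 := low ε (fun m h1 h2 _ => h m h1 h2.le)
    have h3 : |(eulerChar (2 * n) r : ℝ)| = |(-1) ^ n * (eulerChar (2 * n) r : ℝ)| := by
      rw [abs_mul, abs_pow, abs_neg, abs_one, one_pow, one_mul]
    rw [h3, abs_le]
    constructor
    · have h4 := le_max_right (ε n + 2 * ∑ m ∈ evenCo n, ε m) (2 * ∑ m ∈ oddCo n, ε m)
      linarith
    · exact h1.trans (le_max_left _ _)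
  refine ⟨?_, ?_, ?_⟩
  · intro ε h0 h
    apply up ε (density_bound D hD n (ε n) h0).1
    intro m h1 h2 h3
    have h4 := density_bound D hD m (ε m) (h m h1 h2 h3)
    exact ⟨h4.1, h4.2 (by omega)⟩
  · intro ε h
    apply both
    intro m h1 h2
    have h4 := density_bound D hD m (ε m) (h m h1 h2)
    exact ⟨h4.1, h4.2 (by omega)⟩
  · intro h
    have h1 := both (fun _ => 0) (by
      intro m h1 h2
      have h3 : betti D m ≤ 0 ∧ (m < 2 * n → betti D (2 * n - m) ≤ 0) := by
        rcases h m h1 h2 with h4 | h4 | h4
        · exact density_bound D hD m 0 h4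
        · exact density_bound D hD m 0 (density_of_upper h4)
        · exact density_bound D hD m 0 (density_of_ordered h4)
      exact ⟨h3.1, h3.2 (by omega)⟩)
    rw [Finset.sum_const_zero, Finset.sum_const_zero, mul_zero, add_zero, max_self] at h1
    have h2 : (eulerChar (2 * n) r : ℝ) = 0 := abs_eq_zero.1 (le_antisymm h1 (abs_nonneg _))
    exact_mod_cast h2

end Pool.Agent.Results.MP_8a95ee_gt.RaisedCoverings
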